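import Mathlib
import Pool.Agent.Work.MP_5e5ff1_ag.T.Defs

/-! Algebraic solutions and finite bundles. -/

open Polynomial Matrix

namespace Pool.Agent.Work.MP_5e5ff1_ag.A

/-- The system `f' = (B/t + C/(t-1)) f` has a full set of algebraic solutions. This is the
condition of the frozen statement. -/
def HasAlgebraicSolutions {r : ℕ} (B C : Matrix (Fin r) (Fin r) ℂ) : Prop :=
  ∃ (δ : Derivation ℤ (AlgebraicClosure (RatFunc ℂ)) (AlgebraicClosure (RatFunc ℂ)))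
    (F : Matrix (Fin r) (Fin r) (AlgebraicClosure (RatFunc ℂ))),
    (∀ z : ℂ, δ (algebraMap (RatFunc ℂ) (AlgebraicClosure (RatFunc ℂ))
        (algebraMap ℂ (RatFunc ℂ) z)) = 0) ∧
    δ (algebraMap (RatFunc ℂ) (AlgebraicClosure (RatFunc ℂ)) RatFunc.X) = 1 ∧
    F.det ≠ 0 ∧
    F.map (fun x => δ x) =
      (Matrix.of fun i j => algebraMap (RatFunc ℂ) (AlgebraicClosure (RatFunc ℂ))
        (algebraMap ℂ (RatFunc ℂ) (B i j) / RatFunc.X +
         algebraMap ℂ (RatFunc ℂ) (C i j) / (RatFunc.X - 1))) * F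

/-- The vector `(1 ⊕ e (τ 0)) ⊗ ⋯ ⊗ (1 ⊕ e (τ (a-1)))` of `(F ⊕ F^r)^{⊗ a}`. -/
def tensVec {F : Type*} [Field F] {a r : ℕ} (τ : Fin a → Fin r) : (Fin a → Unit ⊕ Fin r) → F :=
  fun f => ∏ l, Sum.elim (fun _ => 1) (fun j => if j = τ l then 1 else 0) (f l)

/-- The parabolic bundle is finite, tested at the point `y`: there is a bound `D` such that, for
all `a` and `τ`, the vector `(1 ⊕ e (τ 0)) ⊗ ⋯ ⊗ (1 ⊕ e (τ (a-1)))` of the fibre at `y` of the
tensor power `(1 ⊕ E)^{⊗ a}` lies in a subbundle of parabolic degree zero and rank at most `D`. -/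
def FiniteBundle {r : ℕ} (g₀ g₁ : Matrix (Fin r) (Fin r) ℂ) (w : Fin 3 × Fin r → ℝ) (y : ℂ) :
    Prop :=
  ∃ D : ℕ, ∀ (a : ℕ) (τ : Fin a → Fin r),
    ∃ U ∈ T.parFibres (T.tens a g₀) (T.tens a g₁) (T.tensWeight a w) y,
      Module.finrank ℂ U ≤ D ∧ tensVec τ ∈ U

end Pool.Agent.Work.MP_5e5ff1_ag.A
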