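import Mathlib
import Pool.Agent.Work.MP_5e5ff1_ag.Bd.B10

/-! The companion theorem. -/

open Polynomial Matrix NumberField

set_option linter.unusedSectionVars false

namespace Pool.Agent.Work.MP_5e5ff1_ag.A

open Pool.Agent.Work.MP_5e5ff1_ag.T

lemma mem_map_mulVecLin {ι : Type*} [Fintype ι] [DecidableEq ι] {γ : Matrix ι ι ℂ}
    (hγ : γ.det ≠ 0) (U : Submodule ℂ (ι → ℂ)) (v : ι → ℂ) :
    γ *ᵥ v ∈ Submodule.map γ.mulVecLin U ↔ v ∈ U := by
  have hinj : Function.Injective γ.mulVecLin := by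
    intro a b hab
    have h1 := congrArg (fun z => γ⁻¹ *ᵥ z) hab
    simpa [mulVecLin_apply, mulVec_mulVec,
      Matrix.nonsing_inv_mul γ (isUnit_iff_ne_zero.mpr hγ)] using h1
  constructor
  · rintro ⟨u, hu, he⟩
    have : u = v := hinj he
    rwa [← this]
  · intro h
    exact ⟨v, h, rfl⟩

lemma finrank_map_mulVecLin {ι : Type*} [Fintype ι] [DecidableEq ι] {γ : Matrix ι ι ℂ}
    (hγ : γ.det ≠ 0) (U : Submodule ℂ (ι → ℂ)) :
    Module.finrank ℂ (Submodule.map γ.mulVecLin U) = Module.finrank ℂ U := by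
  have hinj : Function.Injective γ.mulVecLin := by
    intro a b hab
    have h1 := congrArg (fun z => γ⁻¹ *ᵥ z) hab
    simpa [mulVecLin_apply, mulVec_mulVec,
      Matrix.nonsing_inv_mul γ (isUnit_iff_ne_zero.mpr hγ)] using h1
  exact (Submodule.equivMapOfInjective γ.mulVecLin hinj U).finrank_eq.symm

theorem finite_iff {r : ℕ} {B C : Matrix (Fin r) (Fin r) ℂ} {Φ : ℂ ≃+* ℂ}
    {g₀ g₁ : Matrix (Fin r) (Fin r) ℂ} {w : Fin 3 × Fin r → ℝ}
    (h : ∀ x : ℂ, x ≠ 0 → x ≠ 1 → ∃ γ : Matrix (Fin r) (Fin r) ℂ, γ.det ≠ 0 ∧ ∀ m : ℕ,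
        connFibres (tensAdd m B) (tensAdd m C) x
          = Submodule.map (tens m γ).mulVecLin ''
            parFibres (tens m g₀) (tens m g₁) (tensWeight m w) (Φ x))
    {y : ℂ} (hy0 : y ≠ 0) (hy1 : y ≠ 1) :
    HasAlgebraicSolutions B C ↔ FiniteBundle g₀ g₁ w y := by
  have hx0 : Φ.symm y ≠ 0 := by simpa using hy0
  have hx1 : Φ.symm y ≠ 1 := by simpa using hy1
  obtain ⟨γ, hγ, hfib⟩ := h (Φ.symm y) hx0 hx1
  rw [algebraic_iff_bounded hx0 hx1 B C hγ]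
  unfold FiniteBundle
  have hΦ : Φ (Φ.symm y) = y := Φ.apply_symm_apply y
  rw [hΦ] at hfib
  constructor
  · rintro ⟨D, hD⟩
    refine ⟨D, fun a τ => ?_⟩
    obtain ⟨U, hU, hrank, hmem⟩ := hD a τ
    rw [hfib a] at hU
    obtain ⟨U', hU', rfl⟩ := hU
    rw [finrank_map_mulVecLin (tens_det_ne a hγ)] at hrank
    rw [mem_map_mulVecLin (tens_det_ne a hγ)] at hmem
    exact ⟨U', hU', hrank, hmem⟩
  · rintro ⟨D, hD⟩
    refine ⟨D, fun a τ => ?_⟩
    obtain ⟨U, hU, hrank, hmem⟩ := hD a τ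
    refine ⟨Submodule.map (tens a γ).mulVecLin U, ?_, ?_, ?_⟩
    · rw [hfib a]
      exact ⟨U, hU, rfl⟩
    · rwa [finrank_map_mulVecLin (tens_det_ne a hγ)]
    · rwa [mem_map_mulVecLin (tens_det_ne a hγ)]

end Pool.Agent.Work.MP_5e5ff1_ag.A
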